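import Pool.Agent.H.MP_27ff1b_co.C

namespace Pool.Agent.H.MP_f210e3_co

open Finset Pool.Agent.H.MP_27ff1b_co

variable {V : Type}

/-- rank with multiplicities -/
def Low (G : SimpleGraph V) : ℕ → ℕ → Set V → Prop
  | 0, c, X => ∃ a : Finset V, a.card ≤ c ∧ ∀ x ∈ X, x ∈ a
  | e + 1, c, X => ∃ d : Finset (Set V), d.card ≤ c ∧ (∀ x ∈ X, ∃ Y ∈ d, x ∈ Y) ∧
      ∀ Y ∈ d, ∀ u, Low G e c {y | y ∈ Y ∧ G.Adj u y} ∨ Low G e c {y | y ∈ Y ∧ ¬ G.Adj u y}

def Good (G : SimpleGraph V) (e c : ℕ) (Y : Set V) : Prop :=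
  ∀ u, Low G e c {y | y ∈ Y ∧ G.Adj u y} ∨ Low G e c {y | y ∈ Y ∧ ¬ G.Adj u y}

def tp (G : SimpleGraph V) (e c : ℕ) (Y : Set V) : Set V :=
  {u | Low G e c {y | y ∈ Y ∧ ¬ G.Adj u y}}

variable {G : SimpleGraph V}

theorem Low.mono {e : ℕ} : ∀ {c c' : ℕ} {X X' : Set V}, Low G e c X → X' ⊆ X → c ≤ c' →
    Low G e c' X' := by
  induction e with
  | zero =>
    rintro c c' X X' ⟨a, h1, h2⟩ hX hc
    exact ⟨a, h1.trans hc, fun x hx => h2 x (hX hx)⟩
  | succ e ih =>
    rintro c c' X X' ⟨d, h1, h2, h3⟩ hX hc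
    exact ⟨d, h1.trans hc, fun x hx => h2 x (hX hx), fun Y hY u =>
      (h3 Y hY u).imp (fun h => ih h subset_rfl hc) (fun h => ih h subset_rfl hc)⟩

theorem Low.empty {e c : ℕ} {X : Set V} (h : ∀ x, x ∉ X) : Low G e c X := by
  cases e with
  | zero => exact ⟨∅, by simp, fun x hx => absurd hx (h x)⟩
  | succ e => exact ⟨∅, by simp, fun x hx => absurd hx (h x), by simp⟩

theorem Low.single (e : ℕ) (x : V) : Low G e 1 {x} := by
  cases e with
  | zero => exact ⟨{x}, by simp, by simp⟩
  | succ e =>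
    refine ⟨{{x}}, by simp, by simp, ?_⟩
    intro Y hY u
    rw [mem_singleton] at hY
    subst hY
    by_cases h : G.Adj u x
    · right
      apply Low.empty
      rintro y ⟨rfl, h'⟩
      exact h' h
    · left
      apply Low.empty
      rintro y ⟨rfl, h'⟩
      exact h h'

theorem Low.union {e c c' : ℕ} {X X' Z : Set V} (h : Low G e c X) (h' : Low G e c' X')
    (hZ : ∀ x ∈ Z, x ∈ X ∨ x ∈ X') : Low G e (c + c') Z := by
  classical
  cases e with
  | zero =>
    obtain ⟨a, a1, a2⟩ := h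
    obtain ⟨b, b1, b2⟩ := h'
    exact ⟨a ∪ b, (card_union_le _ _).trans (by omega), fun x hx =>
      mem_union.2 ((hZ x hx).imp (a2 x) (b2 x))⟩
  | succ e =>
    obtain ⟨a, a1, a2, a3⟩ := h
    obtain ⟨b, b1, b2, b3⟩ := h'
    refine ⟨a ∪ b, (card_union_le _ _).trans (by omega), fun x hx => ?_, fun Y hY u => ?_⟩
    · rcases hZ x hx with h | h
      · obtain ⟨Y, hY, hxY⟩ := a2 x h
        exact ⟨Y, mem_union_left _ hY, hxY⟩
      · obtain ⟨Y, hY, hxY⟩ := b2 x h
        exact ⟨Y, mem_union_right _ hY, hxY⟩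
    · rcases mem_union.1 hY with h | h
      · exact (a3 Y h u).imp (fun h => h.mono subset_rfl (by omega))
          (fun h => h.mono subset_rfl (by omega))
      · exact (b3 Y h u).imp (fun h => h.mono subset_rfl (by omega))
          (fun h => h.mono subset_rfl (by omega))

theorem Low.biUnion {ι : Type} {e c : ℕ} (s : Finset ι) (X : ι → Set V)
    (h : ∀ i ∈ s, Low G e c (X i)) : Low G e (s.card * c) {x | ∃ i ∈ s, x ∈ X i} := by
  classical
  induction s using Finset.induction_on with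
  | empty => exact Low.empty (by simp)
  | insert a s ha ih =>
    rw [card_insert_of_notMem ha, add_mul, one_mul]
    refine (ih (fun i hi => h i (mem_insert_of_mem hi))).union (h a (mem_insert_self _ _)) ?_
    rintro x ⟨i, hi, hx⟩
    rcases mem_insert.1 hi with rfl | hi
    · exact Or.inr hx
    · exact Or.inl ⟨i, hi, hx⟩

theorem Good.mono {e c : ℕ} {Y Y' : Set V} (h : Good G e c Y) (hY : Y' ⊆ Y) : Good G e c Y' :=
  fun u => (h u).imp (fun h => h.mono (fun _ hy => ⟨hY hy.1, hy.2⟩) le_rfl)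
    (fun h => h.mono (fun _ hy => ⟨hY hy.1, hy.2⟩) le_rfl)

theorem tp_ne {e c : ℕ} {Y Y' : Set V} (h : Good G e c Y) (h' : Good G e c Y')
    (hne : tp G e c Y ≠ tp G e c Y') : Low G e (c + c) (Y ∩ Y') := by
  by_contra hc
  apply hne
  have key : ∀ {Y Y' : Set V}, Good G e c Y' → ¬ Low G e (c + c) (Y ∩ Y') →
      tp G e c Y ⊆ tp G e c Y' := by
    intro Y Y' h' hc u hu
    refine (h' u).resolve_left (fun a => hc ?_)
    refine Low.union hu a (fun x hx => ?_)
    by_cases b : G.Adj u x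
    · exact Or.inr ⟨hx.2, b⟩
    · exact Or.inl ⟨hx.1, b⟩
  exact Set.Subset.antisymm (key h' hc) (key h (by rwa [Set.inter_comm]))

/-- no half-graph of order `n` -/
def NH (G : SimpleGraph V) (n : ℕ) : Prop :=
  ¬ ∃ a b : ℕ → V, ∀ i < n, ∀ j < n, (G.Adj (a i) (b j) ↔ i ≤ j)

open Classical in
/-- a finite set whose average type is `τ` -/
def Rep (G : SimpleGraph V) (n : ℕ) (τ : Set V) (A : Finset V) : Prop :=
  ∀ v, (v ∈ τ → (A.filter (fun a => ¬ G.Adj v a)).card ≤ n) ∧
    (v ∉ τ → (A.filter (fun a => G.Adj v a)).card ≤ n)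

theorem lad_build {e c : ℕ} (X : Set V) (D : V → Set V) (τ : Set V)
    (hD : ∀ v, Low G e c {x | x ∈ X ∧ x ∈ D v}) (m : ℕ)
    (hX : ¬ Low G e (m + 2 ^ (m + 1) * c) X) :
    ∃ A : Finset V, (∀ a ∈ A, a ∈ X) ∧ A.card = m ∧ ∀ W ⊆ A, ∀ v, (∀ a ∈ W, a ∈ D v) →
      ∃ α ω : ℕ → V, (∀ s < W.card, (ω s ∈ τ ↔ v ∈ τ)) ∧
        ∀ r < W.card, ∀ s < W.card, (α r ∈ D (ω s) ↔ r ≤ s) := by
  classical
  have hne : Nonempty V := by
    by_contra h
    exact hX (Low.empty (fun x _ => h ⟨x⟩))
  have hw : ∀ (W : Finset V) (σ : Bool), ∃ w : V,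
      (∃ v, (v ∈ τ ↔ σ = true) ∧ ∀ a ∈ W, a ∈ D v) → ((w ∈ τ ↔ σ = true) ∧ ∀ a ∈ W, a ∈ D w) := by
    intro W σ
    by_cases h : ∃ v, (v ∈ τ ↔ σ = true) ∧ ∀ a ∈ W, a ∈ D v
    · obtain ⟨v, hv⟩ := h
      exact ⟨v, fun _ => hv⟩
    · exact ⟨Classical.arbitrary V, fun a => absurd a h⟩
  choose w hw using hw
  have main : ∀ j ≤ m, ∃ A : Finset V, (∀ a ∈ A, a ∈ X) ∧ A.card = j ∧ ∀ W ⊆ A, ∀ σ : Bool,
      (∃ v, (v ∈ τ ↔ σ = true) ∧ ∀ a ∈ W, a ∈ D v) →
      ∃ α ω : ℕ → V, (∀ r < W.card, α r ∈ W) ∧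
        (∀ s < W.card, (ω s ∈ τ ↔ σ = true) ∧ ∃ W' ⊆ A, ω s = w W' σ) ∧
        ∀ r < W.card, ∀ s < W.card, (α r ∈ D (ω s) ↔ r ≤ s) := by
    intro j
    induction j with
    | zero =>
      intro _
      refine ⟨∅, by simp, by simp, fun W hW σ _ => ?_⟩
      rw [subset_empty] at hW
      subst hW
      exact ⟨fun _ => Classical.arbitrary V, fun _ => Classical.arbitrary V, by simp, by simp,
        by simp⟩
    | succ j ih =>
      intro hj
      obtain ⟨A, hA1, hA2, hA3⟩ := ih (by omega)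
      have : ∃ a ∈ X, a ∉ A ∧ ∀ W ⊆ A, ∀ σ, a ∉ D (w W σ) := by
        by_contra hc
        push Not at hc
        apply hX
        have l1 := Low.biUnion (G := G) (e := e) (c := 1) A (fun a => {a})
          (fun a _ => Low.single e a)
        have l2 := Low.biUnion (G := G) (e := e) (c := c) (A.powerset ×ˢ (univ : Finset Bool))
          (fun q => {x | x ∈ X ∧ x ∈ D (w q.1 q.2)}) (fun q _ => hD _)
        refine (l1.union l2 (Z := X) (fun x hx => ?_)).mono subset_rfl ?_
        · by_cases hxA : x ∈ A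
          · exact Or.inl ⟨x, hxA, rfl⟩
          · obtain ⟨W, hW, σ, h⟩ := hc x hx hxA
            exact Or.inr ⟨(W, σ), mem_product.2 ⟨mem_powerset.2 hW, mem_univ _⟩, hx, h⟩
        · rw [card_product, card_powerset, hA2, card_univ, Fintype.card_bool, ← pow_succ]
          have : 2 ^ (j + 1) ≤ 2 ^ (m + 1) := Nat.pow_le_pow_right (by norm_num) (by omega)
          have := Nat.mul_le_mul_right c this
          omega
      obtain ⟨a, haX, haA, haD⟩ := this
      refine ⟨insert a A, ?_, by rw [card_insert_of_notMem haA, hA2], ?_⟩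
      · intro x hx
        rcases mem_insert.1 hx with rfl | hx
        · exact haX
        · exact hA1 x hx
      intro W hW σ hv
      by_cases haW : a ∈ W
      · have hW0 : W.erase a ⊆ A := by
          intro x hx
          rw [mem_erase] at hx
          exact (mem_insert.1 (hW hx.2)).resolve_left hx.1
        obtain ⟨α, ω, h1, h2, h3⟩ := hA3 (W.erase a) hW0 σ (by
          obtain ⟨v, hv1, hv2⟩ := hv
          exact ⟨v, hv1, fun x hx => hv2 x (mem_of_mem_erase hx)⟩)
        have hc : W.card = (W.erase a).card + 1 := (card_erase_add_one haW).symm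
        set l := (W.erase a).card with hl
        have hwW := hw W σ hv
        have hα : ∀ r < W.card, Function.update α l a r ∈ W := by
          intro r hr
          by_cases b : r = l
          · rw [b, Function.update_self]; exact haW
          · rw [Function.update_of_ne b]; exact mem_of_mem_erase (h1 r (by omega))
        refine ⟨Function.update α l a, Function.update ω l (w W σ), hα, ?_, ?_⟩
        · intro s hs
          by_cases b : s = l
          · rw [b, Function.update_self]; exact ⟨hwW.1, W, hW, rfl⟩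
          · rw [Function.update_of_ne b]
            obtain ⟨k1, W', k2, k3⟩ := h2 s (by omega)
            exact ⟨k1, W', k2.trans (subset_insert _ _), k3⟩
        · intro r hr s hs
          by_cases b : s = l
          · rw [b, Function.update_self]
            exact ⟨fun _ => by omega, fun _ => hwW.2 _ (hα r hr)⟩
          · rw [Function.update_of_ne b]
            by_cases b' : r = l
            · rw [b', Function.update_self]
              obtain ⟨-, W', k2, k3⟩ := h2 s (by omega)
              rw [k3]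
              exact ⟨fun h => absurd h (haD W' k2 σ), fun h => by omega⟩
            · rw [Function.update_of_ne b']
              exact h3 r (by omega) s (by omega)
      · have hW0 : W ⊆ A := fun x hx =>
          (mem_insert.1 (hW hx)).resolve_left (fun e => haW (e ▸ hx))
        obtain ⟨α, ω, h1, h2, h3⟩ := hA3 W hW0 σ hv
        refine ⟨α, ω, h1, fun s hs => ?_, h3⟩
        obtain ⟨k1, W', k2, k3⟩ := h2 s hs
        exact ⟨k1, W', k2.trans (subset_insert _ _), k3⟩
  obtain ⟨A, h1, h2, h3⟩ := main m le_rfl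
  refine ⟨A, h1, h2, fun W hW v hv => ?_⟩
  obtain ⟨α, ω, -, k2, k3⟩ := h3 W hW (decide (v ∈ τ)) ⟨v, by simp, hv⟩
  exact ⟨α, ω, fun s hs => by simpa using (k2 s hs).1, k3⟩

theorem exists_rep {e c n : ℕ} (hn : NH G n) {Y X : Set V} (hY : Good G e c Y) (hXY : X ⊆ Y)
    (m : ℕ) (hX : ¬ Low G e (m + 2 ^ (m + 1) * c) X) :
    ∃ A : Finset V, (∀ a ∈ A, a ∈ X) ∧ A.card = m ∧ Rep G n (tp G e c Y) A := by
  classical
  obtain ⟨A, h1, h2, h3⟩ := lad_build (G := G) (e := e) (c := c) X
    (fun v => {a | ¬ (G.Adj v a ↔ v ∈ tp G e c Y)}) (tp G e c Y) (by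
      intro v
      by_cases hv : v ∈ tp G e c Y
      · refine Low.mono hv ?_ le_rfl
        rintro x ⟨hx, hx'⟩
        exact ⟨hXY hx, fun a => hx' (iff_of_true a hv)⟩
      · refine Low.mono ((hY v).resolve_right hv) ?_ le_rfl
        rintro x ⟨hx, hx'⟩
        refine ⟨hXY hx, ?_⟩
        by_contra a
        exact hx' (iff_of_false a hv)) m hX
  refine ⟨A, h1, h2, fun v => ⟨fun hv => ?_, fun hv => ?_⟩⟩
  · by_contra hc
    obtain ⟨α, ω, k1, k2⟩ := h3 _ (filter_subset (fun a => ¬ G.Adj v a) A) v (by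
      intro a ha h
      exact (mem_filter.1 ha).2 (h.2 hv))
    refine hn ⟨ω, fun j => α (j + 1), fun i hi j hj => ?_⟩
    have a1 := (k1 i (by omega)).2 hv
    have a2 := k2 (j + 1) (by omega) i (by omega)
    simp only [Set.mem_ofPred_eq, a1, iff_true] at a2
    constructor
    · intro h
      by_contra h'
      exact (a2.2 (by omega)) h
    · intro h
      by_contra h'
      have := a2.1 h'
      omega
  · by_contra hc
    obtain ⟨α, ω, k1, k2⟩ := h3 _ (filter_subset (fun a => G.Adj v a) A) v (by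
      intro a ha h
      exact hv (h.1 (mem_filter.1 ha).2))
    refine hn ⟨α, ω, fun i hi j hj => ?_⟩
    have a1 : ω j ∉ tp G e c Y := fun h => hv ((k1 j (by omega)).1 h)
    have a2 := k2 i (by omega) j (by omega)
    simp only [Set.mem_ofPred_eq, a1, iff_false, not_not] at a2
    rw [G.adj_comm]
    exact a2

open Classical in
theorem rep_sym {n : ℕ} {τ τ' : Set V} {A A' : Finset V} (h : Rep G n τ A) (h' : Rep G n τ' A')
    (hc : 2 * n < (A.filter (fun a => a ∈ τ')).card) :
    (A'.filter (fun a => a ∉ τ)).card ≤ 2 * n := by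
  by_contra hc'
  set P := A.filter (fun a => a ∈ τ') with hP
  set Q := A'.filter (fun a => a ∉ τ) with hQ
  have e1 : ∑ a ∈ P, (Q.filter (fun b => G.Adj b a)).card =
      ∑ b ∈ Q, (P.filter (fun a => G.Adj b a)).card := by
    simp only [card_filter]
    exact sum_comm
  have e2 : ∑ b ∈ Q, (P.filter (fun a => G.Adj b a)).card ≤ ∑ b ∈ Q, n := by
    refine sum_le_sum (fun b hb => le_trans (card_le_card ?_) ((h b).2 (mem_filter.1 hb).2))
    exact filter_subset_filter _ (filter_subset _ _)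
  have e3 : ∑ a ∈ P, Q.card ≤ ∑ a ∈ P, ((Q.filter (fun b => G.Adj b a)).card + n) := by
    refine sum_le_sum (fun a ha => ?_)
    have a1 := card_filter_add_card_filter_not (s := Q) (fun b => G.Adj b a)
    have a2 : (Q.filter (fun b => ¬ G.Adj b a)).card ≤ n := by
      refine le_trans (card_le_card ?_) ((h' a).1 (mem_filter.1 ha).2)
      intro b hb
      rw [mem_filter] at hb
      exact mem_filter.2 ⟨(mem_filter.1 hb.1).1, fun x => hb.2 x.symm⟩
    omega
  rw [sum_add_distrib, e1] at e3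
  simp only [sum_const, smul_eq_mul] at e2 e3
  push Not at hc'
  nlinarith

open Classical in
theorem rep_self {n k : ℕ} {τ : Set V} {A : Finset V} (h : Rep G n τ A)
    (hk : ∀ K : Finset V, G.IsClique K → K.card ≤ k) :
    (A.filter (fun a => a ∈ τ)).card ≤ k * (2 * n + 1) := by
  obtain ⟨f, f1, f2⟩ := Col.outdeg (fun u v => ¬ G.Adj u v) n (A.filter (fun a => a ∈ τ)) (by
    intro v hv
    refine le_trans (card_le_card ?_) ((h v).1 (mem_filter.1 hv).2)
    exact filter_subset_filter _ (filter_subset _ _))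
  have := card_le_mul_card_image_of_maps_to (s := A.filter (fun a => a ∈ τ))
    (t := range (2 * n + 1)) (f := f) (fun a ha => mem_range.2 (f1 a ha)) k (by
      intro b _
      apply hk
      intro x hx y hy hxy
      rw [mem_coe, mem_filter] at hx hy
      by_contra hadj
      exact f2 x hx.1 y hy.1 hxy hadj (hx.2.trans hy.2.symm))
  simpa using this

/-- Littlestone trees -/
def Tr (G : SimpleGraph V) (U : Set V) : ℕ → Set V → Prop
  | 0, X => X.Nonempty
  | h + 1, X => ∃ u ∈ U, Tr G U h {y | y ∈ X ∧ G.Adj u y} ∧ Tr G U h {y | y ∈ X ∧ ¬ G.Adj u y}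

theorem Tr.mono {U : Set V} {h : ℕ} : ∀ {X X' : Set V}, Tr G U h X → X ⊆ X' → Tr G U h X' := by
  induction h with
  | zero => exact fun h hX => Set.Nonempty.mono hX h
  | succ h ih =>
    rintro X X' ⟨u, hu, h1, h2⟩ hX
    exact ⟨u, hu, ih h1 (fun y hy => ⟨hX hy.1, hy.2⟩), ih h2 (fun y hy => ⟨hX hy.1, hy.2⟩)⟩

theorem Tr.down {U : Set V} {h : ℕ} {X : Set V} (t : Tr G U (h + 1) X) : Tr G U h X := by
  obtain ⟨u, -, h1, -⟩ := t
  exact h1.mono (fun y hy => hy.1)

theorem Tr.nonempty {U : Set V} {h : ℕ} {X : Set V} (t : Tr G U h X) : X.Nonempty := by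
  induction h with
  | zero => exact t
  | succ h ih => exact ih t.down

theorem Tr.ramsey {U Z : Set V} (s : ℕ) : ∀ (a b : ℕ) (X : Set V), a + b = s →
    Tr G U (s + 1) X → Tr G (U ∩ Z) (a + 1) X ∨ Tr G (U \ Z) (b + 1) X := by
  induction s with
  | zero =>
    rintro a b X hab ⟨u, hu, h1, h2⟩
    obtain rfl : a = 0 := by omega
    obtain rfl : b = 0 := by omega
    by_cases hz : u ∈ Z
    · exact Or.inl ⟨u, ⟨hu, hz⟩, h1, h2⟩
    · exact Or.inr ⟨u, ⟨hu, hz⟩, h1, h2⟩
  | succ s ih =>
    rintro a b X hab ⟨u, hu, h1, h2⟩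
    by_cases hz : u ∈ Z
    · cases a with
      | zero => exact Or.inl ⟨u, ⟨hu, hz⟩, h1.nonempty, h2.nonempty⟩
      | succ a =>
        rcases ih a b _ (by omega) h1 with x1 | x1
        · rcases ih a b _ (by omega) h2 with x2 | x2
          · exact Or.inl ⟨u, ⟨hu, hz⟩, x1, x2⟩
          · exact Or.inr (x2.mono (fun y hy => hy.1))
        · exact Or.inr (x1.mono (fun y hy => hy.1))
    · cases b with
      | zero => exact Or.inr ⟨u, ⟨hu, hz⟩, h1.nonempty, h2.nonempty⟩
      | succ b =>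
        rcases ih a b _ (by omega) h1 with x1 | x1
        · exact Or.inl (x1.mono (fun y hy => hy.1))
        · rcases ih a b _ (by omega) h2 with x2 | x2
          · exact Or.inl (x2.mono (fun y hy => hy.1))
          · exact Or.inr ⟨u, ⟨hu, hz⟩, x1, x2⟩

theorem tr_ladder (n : ℕ) : ∃ H : ℕ, ∀ (V : Type) (G : SimpleGraph V) (U X : Set V),
    Tr G U (H + 1) X → ∃ a b : ℕ → V, (∀ i < n, a i ∈ X ∧ b i ∈ U) ∧
      ∀ i < n, ∀ j < n, (G.Adj (a i) (b j) ↔ i ≤ j) := by
  induction n with
  | zero =>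
    refine ⟨0, fun V G U X h => ?_⟩
    obtain ⟨x, -⟩ := h.nonempty
    exact ⟨fun _ => x, fun _ => x, by simp, by simp⟩
  | succ n ih =>
    obtain ⟨H, hH⟩ := ih
    refine ⟨2 * H + 3, fun V G U X h => ?_⟩
    obtain ⟨u, hu, h1, -⟩ := h
    obtain ⟨x, hx, hux⟩ := h1.nonempty
    rcases Tr.ramsey (Z := {z | G.Adj x z}) (2 * H + 2) (H + 1) (H + 1) _ (by omega) h1 with
      ⟨u', hu', -, h2⟩ | h2
    · obtain ⟨a, b, k1, k2⟩ := hH V G _ _ h2
      refine ⟨fun i => Nat.casesOn i x a, fun i => Nat.casesOn i u' b, ?_, ?_⟩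
      · intro i hi
        cases i with
        | zero => exact ⟨hx, hu'.1⟩
        | succ i => exact ⟨(k1 i (by omega)).1.1.1, (k1 i (by omega)).2.1⟩
      · intro i hi j hj
        cases i with
        | zero =>
          cases j with
          | zero => exact iff_of_true hu'.2 le_rfl
          | succ j => exact iff_of_true (k1 j (by omega)).2.2 (by omega)
        | succ i =>
          cases j with
          | zero => exact iff_of_false (fun h => (k1 i (by omega)).1.2 h.symm) (by omega)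
          | succ j => exact (k2 i (by omega) j (by omega)).trans (by omega)
    · obtain ⟨a, b, k1, k2⟩ := hH V G _ _ h2.down
      refine ⟨Function.update a n x, Function.update b n u, ?_, ?_⟩
      · intro i hi
        by_cases e : i = n
        · rw [e, Function.update_self, Function.update_self]; exact ⟨hx, hu⟩
        · rw [Function.update_of_ne e, Function.update_of_ne e]
          exact ⟨(k1 i (by omega)).1.1, (k1 i (by omega)).2.1⟩
      · intro i hi j hj
        by_cases e : i = n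
        · rw [e, Function.update_self]
          by_cases e' : j = n
          · rw [e', Function.update_self]; exact iff_of_true hux.symm le_rfl
          · rw [Function.update_of_ne e']
            exact iff_of_false (k1 j (by omega)).2.2 (by omega)
        · rw [Function.update_of_ne e]
          by_cases e' : j = n
          · rw [e', Function.update_self]
            exact iff_of_true (k1 i (by omega)).1.2.symm (by omega)
          · rw [Function.update_of_ne e']
            exact k2 i (by omega) j (by omega)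

theorem low_of_not_tr (h : ℕ) : ∀ X : Set V, ¬ Tr G Set.univ h X → Low G h 1 X := by
  induction h with
  | zero => exact fun X hX => Low.empty (fun x hx => hX ⟨x, hx⟩)
  | succ h ih =>
    intro X hX
    refine ⟨{X}, by simp, by simp, fun Y hY u => ?_⟩
    rw [mem_singleton] at hY
    subst hY
    by_contra hc
    push Not at hc
    exact hX ⟨u, trivial, by_contra (fun a => hc.1 (ih _ a)), by_contra (fun a => hc.2 (ih _ a))⟩

theorem low_of_nh (n : ℕ) : ∃ H : ℕ, ∀ (V : Type) (G : SimpleGraph V), NH G n →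
    ∀ X : Set V, Low G H 1 X := by
  obtain ⟨H, hH⟩ := tr_ladder n
  refine ⟨H + 1, fun V G hn X => low_of_not_tr _ X (fun h => ?_)⟩
  obtain ⟨a, b, -, h⟩ := hH V G _ _ h
  exact hn ⟨a, b, h⟩

end Pool.Agent.H.MP_f210e3_co
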