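import Pool.Agent.H.MP_f210e3_co.A

namespace Pool.Agent.H.MP_f210e3_co

open Finset Pool.Agent.H.MP_27ff1b_co

variable {V : Type}

open Classical in
/-- designated pieces and coloured types -/
structure Data (G : SimpleGraph V) (e c n : ℕ) (S0 : Finset V) (d : V → Finset (Set V))
    (O : Finset (Set V)) (γ : Set V → ℕ) : Prop where
  dcard : ∀ w ∈ S0, (d w).card ≤ c
  good : ∀ w ∈ S0, ∀ Y ∈ d w, Good G e c Y ∧ ∀ y ∈ Y, G.Adj w y
  R : ∀ τ ∈ O, ∀ u ∈ S0, u ∈ τ → ∃ Y ∈ d u, tp G e c Y = τ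
  sep : ∀ τ ∈ O, ∀ τ' ∈ O, γ τ = γ τ' → ∀ A, Rep G n τ A →
    (A.filter (fun a => a ∈ τ')).card ≤ 2 * n

def Hyp (G : SimpleGraph V) (e c : ℕ) (d : V → Finset (Set V)) (O : Finset (Set V))
    (γ : Set V → ℕ) (S : Finset V) (b D : ℕ) : Prop :=
  ∀ u ∈ S, Low G e D {y | y ∈ S ∧ G.Adj u y ∧
    ∀ Y ∈ d u, tp G e c Y ∈ O → γ (tp G e c Y) < b → y ∉ Y}

theorem Hyp.mono {G : SimpleGraph V} {e c : ℕ} {d : V → Finset (Set V)} {O : Finset (Set V)}
    {γ : Set V → ℕ} {S S' : Finset V} {b D : ℕ} (h : Hyp G e c d O γ S b D) (hS : S' ⊆ S) :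
    Hyp G e c d O γ S' b D :=
  fun u hu => (h u (hS hu)).mono (fun _ hy => ⟨hS hy.1, hy.2⟩) le_rfl

def Phi (n k : ℕ) (p : ℕ → ℕ) (T e : ℕ) : Prop :=
  ∀ c, ∃ N, ∀ (V : Type) (G : SimpleGraph V), NH G n →
    (∀ K : Finset V, G.IsClique K → K.card ≤ k) → ∀ S : Finset V,
    (∀ u ∈ S, Low G e c {y | y ∈ S ∧ G.Adj u y}) → (¬ ∃ φ, Cp G p T S φ) → Col G.Adj S N

def Psi (n k : ℕ) (p : ℕ → ℕ) (T e c b : ℕ) : Prop :=
  ∀ D, ∃ N, ∀ (V : Type) (G : SimpleGraph V) (S0 : Finset V) (d : V → Finset (Set V))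
    (O : Finset (Set V)) (γ : Set V → ℕ), NH G n →
    (∀ K : Finset V, G.IsClique K → K.card ≤ k) → Data G e c n S0 d O γ → ∀ S ⊆ S0,
    Hyp G e c d O γ S b D → (¬ ∃ φ, Cp G p T S φ) → Col G.Adj S N

theorem psi_zero {n k : ℕ} {p : ℕ → ℕ} {T e : ℕ} (c : ℕ) (h : Phi n k p T e) :
    Psi n k p T e c 0 := by
  intro D
  obtain ⟨N, hN⟩ := h D
  refine ⟨N, fun V G S0 d O γ hn hk _ S _ hH hT => hN V G hn hk S (fun u hu => ?_) hT⟩
  exact (hH u hu).mono (fun y hy => ⟨hy.1, hy.2, fun Y _ _ h => absurd h (Nat.not_lt_zero _)⟩)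
    le_rfl

theorem psi_leaf {n k : ℕ} {p : ℕ → ℕ} (hp : ∀ i, 0 < i → p i < i) {T e c b : ℕ}
    (h : Psi n k p T e c b) (D t : ℕ) :
    ∃ N, ∀ (V : Type) (G : SimpleGraph V) (S0 : Finset V) (d : V → Finset (Set V))
      (O : Finset (Set V)) (γ : Set V → ℕ), NH G n →
      (∀ K : Finset V, G.IsClique K → K.card ≤ k) → Data G e c n S0 d O γ → ∀ S ⊆ S0,
      Hyp G e c d O γ S (b + 1) D → (¬ ∃ φ, Cp G p T S φ) → Col G.Adj S N ∨
        ∃ φ, Cp G p (t + 1) S φ ∧ ∀ i < t + 1, ∀ j < t + 1, i ≠ j →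
          ∀ τ ∈ O, γ τ = b → φ i ∈ τ → φ j ∉ τ := by
  induction t with
  | zero =>
    refine ⟨0, fun V G S0 d O γ _ _ _ S _ _ _ => ?_⟩
    rcases S.eq_empty_or_nonempty with rfl | ⟨x, hx⟩
    · exact Or.inl (Col.empty _ _)
    · exact Or.inr ⟨fun _ => x, Cp.one G p hx, fun i hi j hj hij => by omega⟩
  | succ t ih =>
    obtain ⟨N, hN⟩ := ih
    set m := (t + 1) * (n + c * (2 * n) + 1) + 1 with hm
    set M := m + 2 ^ (m + 1) * c with hM
    obtain ⟨N', hN'⟩ := h (D + c * M)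
    refine ⟨N + N', fun V G S0 d O γ hn hk hD S hS hH hT => ?_⟩
    classical
    set S' := S.filter (fun w => ∃ Y ∈ d w, tp G e c Y ∈ O ∧ γ (tp G e c Y) = b ∧
      ¬ Low G e M {y | y ∈ Y ∧ y ∈ S}) with hS'
    have hS'S : S' ⊆ S := filter_subset _ _
    rcases hN V G S0 d O γ hn hk hD S' (hS'S.trans hS) (hH.mono hS'S)
      (fun ⟨φ, hφ⟩ => hT ⟨φ, hφ.mono hS'S⟩) with h1 | ⟨φ, hφ, hR⟩
    · left
      have h2 : Col G.Adj (S \ S') N' := by
        refine hN' V G S0 d O γ hn hk hD _ (sdiff_subset.trans hS) ?_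
          (fun ⟨φ, hφ⟩ => hT ⟨φ, hφ.mono sdiff_subset⟩)
        intro u hu
        rw [mem_sdiff] at hu
        have l2 := Low.biUnion (G := G) (e := e) (c := M)
          ((d u).filter (fun Y => tp G e c Y ∈ O ∧ γ (tp G e c Y) = b))
          (fun Y => {y | y ∈ Y ∧ y ∈ S}) (by
            intro Y hY
            rw [mem_filter] at hY
            by_contra hc
            exact hu.2 (mem_filter.2 ⟨hu.1, Y, hY.1, hY.2.1, hY.2.2, hc⟩))
        refine ((hH u hu.1).union l2 ?_).mono subset_rfl ?_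
        · rintro y ⟨y1, y2, y3⟩
          have y1' := (mem_sdiff.1 y1).1
          by_cases a : ∃ Y ∈ d u, tp G e c Y ∈ O ∧ γ (tp G e c Y) = b ∧ y ∈ Y
          · obtain ⟨Y, a1, a2, a3, a4⟩ := a
            exact Or.inr ⟨Y, mem_filter.2 ⟨a1, a2, a3⟩, a4, y1'⟩
          · refine Or.inl ⟨y1', y2, fun Y a1 a2 a3 a4 => ?_⟩
            by_cases a5 : γ (tp G e c Y) = b
            · exact a ⟨Y, a1, a2, a5, a4⟩
            · exact y3 Y a1 a2 (by omega) a4
        · exact Nat.add_le_add_left (Nat.mul_le_mul_right M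
            ((card_filter_le _ _).trans (hD.dcard u (hS hu.1)))) D
      refine h1.union h2 (fun v hv => ?_)
      by_cases a : v ∈ S'
      · exact Or.inl a
      · exact Or.inr (mem_sdiff.2 ⟨hv, a⟩)
    · right
      have hpt : p (t + 1) < t + 1 := hp _ (by omega)
      set w := φ (p (t + 1)) with hw
      have hwS' : w ∈ S' := hφ.1 _ hpt
      have hφ0 : ∀ i < t + 1, φ i ∈ S0 := fun i hi => hS (hS'S (hφ.1 i hi))
      have hw0 : w ∈ S0 := hφ0 _ hpt
      obtain ⟨Y0, hY0, hO, hγ, hlow⟩ := (mem_filter.1 hwS').2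
      have hg := hD.good w hw0 Y0 hY0
      obtain ⟨A, hA1, hA2, hA3⟩ := exists_rep hn hg.1 (fun y hy => hy.1) m hlow
      have hwτ : w ∈ tp G e c Y0 := Low.empty (fun y hy => hy.2 (hg.2 y hy.1))
      obtain ⟨x, hx, hxZ⟩ := avoid A (t + 1) (n + c * (2 * n) + 1)
        (fun i => insert (φ i) ((if i = p (t + 1) then ∅ else A.filter (fun a => G.Adj (φ i) a)) ∪
          ((d (φ i)).filter (fun Y => tp G e c Y ∈ O ∧ γ (tp G e c Y) = b)).biUnion
            (fun Y => A.filter (fun a => a ∈ tp G e c Y)))) (by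
          intro i hi
          refine le_trans (card_insert_le _ _) (Nat.add_le_add_right ?_ 1)
          refine le_trans (card_union_le _ _) (Nat.add_le_add ?_ ?_)
          · split_ifs with a
            · simp
            · have := (hA3 (φ i)).2 (hR _ hpt i hi (fun e => a e.symm) _ hO hγ hwτ)
              convert this
          · refine le_trans (card_biUnion_le_card_mul _ _ (2 * n) ?_) ?_
            · intro Y hY
              rw [mem_filter] at hY
              have := hD.sep _ hO _ hY.2.1 (hγ.trans hY.2.2.symm) A hA3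
              convert this
            · exact Nat.mul_le_mul_right _ ((card_filter_le _ _).trans (hD.dcard _ (hφ0 i hi))))
        (by rw [hA2]; omega)
      have hxS : x ∈ S := (hA1 x hx).2
      have key : ∀ i < t + 1, ∀ τ ∈ O, γ τ = b → φ i ∈ τ → x ∉ τ := by
        intro i hi τ h1 h2 h3 h4
        obtain ⟨Y, hY, rfl⟩ := hD.R τ h1 _ (hφ0 i hi) h3
        exact hxZ i hi (mem_insert_of_mem (mem_union_right _ (mem_biUnion.2
          ⟨Y, mem_filter.2 ⟨hY, h1, h2⟩, mem_filter.2 ⟨hx, h4⟩⟩)))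
      refine ⟨Function.update φ (t + 1) x, (hφ.mono hS'S).ext hxS ?_, ?_⟩
      · intro i hi
        refine ⟨fun e => hxZ i hi (e ▸ mem_insert_self _ _), ?_,
          fun e => e ▸ hg.2 x (hA1 x hx).1⟩
        intro ha
        by_contra hip
        apply hxZ i hi
        simp only [hip, if_false]
        exact mem_insert_of_mem (mem_union_left _ (mem_filter.2 ⟨hx, ha⟩))
      · intro i hi j hj hij τ h1 h2
        by_cases a : i = t + 1
        · have hj' : j < t + 1 := by omega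
          rw [a, Function.update_self, Function.update_of_ne (by omega)]
          exact fun h3 h4 => key j hj' τ h1 h2 h4 h3
        · have hi' : i < t + 1 := by omega
          rw [Function.update_of_ne a]
          by_cases b' : j = t + 1
          · rw [b', Function.update_self]
            exact key i hi' τ h1 h2
          · rw [Function.update_of_ne b']
            exact hR i hi' j (by omega) hij τ h1 h2

theorem psi_all {n k : ℕ} {p : ℕ → ℕ} (hp : ∀ i, 0 < i → p i < i) {T e : ℕ} (c : ℕ)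
    (h : Phi n k p (T + 1) e) (b : ℕ) : Psi n k p (T + 1) e c b := by
  induction b with
  | zero => exact psi_zero c h
  | succ b ih =>
    intro D
    obtain ⟨N, hN⟩ := psi_leaf hp ih D T
    exact ⟨N, fun V G S0 d O γ hn hk hD S hS hH hT =>
      (hN V G S0 d O γ hn hk hD S hS hH hT).resolve_right (fun ⟨φ, h, _⟩ => hT ⟨φ, h⟩)⟩

theorem phi_zero (n k : ℕ) (p : ℕ → ℕ) (T : ℕ) : Phi n k p T 0 := by
  intro c
  refine ⟨2 * c + 1, fun V G _ _ S h _ => ?_⟩
  classical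
  apply Col.outdeg
  intro v hv
  obtain ⟨a, a1, a2⟩ := h v hv
  exact (card_le_card (fun y hy => a2 y (mem_filter.1 hy))).trans a1

theorem phi_succ {n k : ℕ} {p : ℕ → ℕ} (hp : ∀ i, 0 < i → p i < i) {T e : ℕ}
    (h : Phi n k p (T + 1) e) : Phi n k p (T + 1) (e + 1) := by
  intro c
  set m := 4 * n + 1 + k * (2 * n + 1) with hm
  set M := m + 2 ^ (m + 1) * c + (c + c * (c + c)) with hM
  obtain ⟨N, hN⟩ := psi_all hp c h (2 * (m * c) + 1) (c * M)
  refine ⟨N, fun V G hn hk S hS hT => ?_⟩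
  classical
  have : ∀ u, ∃ d : Finset (Set V), u ∈ S → (d.card ≤ c ∧
      (∀ y ∈ S, G.Adj u y → ∃ Y ∈ d, y ∈ Y) ∧
      ∀ Y ∈ d, Good G e c Y ∧ ∀ y ∈ Y, G.Adj u y ∧ y ∈ S) := by
    intro u
    by_cases hu : u ∈ S
    · obtain ⟨d, d1, d2, d3⟩ := hS u hu
      refine ⟨d.image (fun Y => {y | y ∈ Y ∧ G.Adj u y ∧ y ∈ S}), fun _ =>
        ⟨card_image_le.trans d1, fun y hy ha => ?_, fun Y hY => ?_⟩⟩
      · obtain ⟨Y, hY, hyY⟩ := d2 y ⟨hy, ha⟩
        exact ⟨_, mem_image_of_mem _ hY, hyY, ha, hy⟩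
      · obtain ⟨Y', hY', rfl⟩ := mem_image.1 hY
        exact ⟨Good.mono (d3 Y' hY') (fun y hy => hy.1), fun y hy => hy.2⟩
    · exact ⟨∅, fun a => absurd a hu⟩
  choose d hd using this
  set O := S.biUnion (fun w => ((d w).filter (fun Y => ¬ Low G e M Y)).image (tp G e c)) with hO
  have mO : ∀ τ, τ ∈ O ↔ ∃ w ∈ S, ∃ Y ∈ d w, ¬ Low G e M Y ∧ tp G e c Y = τ := by
    intro τ
    simp only [hO, mem_biUnion, mem_image, mem_filter, and_assoc]
  have hR : ∀ τ ∈ O, ∀ u ∈ S, u ∈ τ → ∃ Y ∈ d u, tp G e c Y = τ := by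
    intro τ hτ u hu huτ
    obtain ⟨w, hw, Y, hY, hl, rfl⟩ := (mO τ).1 hτ
    by_contra hc
    push Not at hc
    apply hl
    have g := (hd w hw).2.2 Y hY
    have l2 := Low.biUnion (G := G) (e := e) (c := c + c) (d u) (fun Y' => Y' ∩ Y)
      (fun Y' hY' => tp_ne ((hd u hu).2.2 Y' hY').1 g.1 (hc Y' hY'))
    refine (Low.union huτ l2 (Z := Y) (fun y hy => ?_)).mono subset_rfl ?_
    · by_cases a : G.Adj u y
      · obtain ⟨Y', hY', hy'⟩ := (hd u hu).2.1 y (g.2 y hy).2 a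
        exact Or.inr ⟨Y', hY', hy', hy⟩
      · exact Or.inl ⟨hy, a⟩
    · have := Nat.mul_le_mul_right (c + c) (hd u hu).1
      omega
  have : ∀ τ, ∃ A : Finset V, τ ∈ O → ((∀ a ∈ A, a ∈ S) ∧ A.card = m ∧ Rep G n τ A) := by
    intro τ
    by_cases hτ : τ ∈ O
    · obtain ⟨w, hw, Y, hY, hl, rfl⟩ := (mO τ).1 hτ
      have g := (hd w hw).2.2 Y hY
      obtain ⟨A, a1, a2, a3⟩ := exists_rep hn g.1 subset_rfl m
        (fun a => hl (a.mono subset_rfl (by omega)))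
      exact ⟨A, fun _ => ⟨fun a ha => (g.2 a (a1 a ha)).2, a2, a3⟩⟩
    · exact ⟨∅, fun a => absurd a hτ⟩
  choose Rp hRp using this
  obtain ⟨γ, γ1, γ2⟩ := Col.outdeg
    (fun τ τ' : Set V => ((Rp τ).filter (fun a => a ∈ τ')).Nonempty) (m * c) O (by
      intro τ hτ
      have : O.filter (fun τ' => ((Rp τ).filter (fun a => a ∈ τ')).Nonempty) ⊆
          (Rp τ).biUnion (fun a => (d a).image (tp G e c)) := by
        intro τ' hτ'
        obtain ⟨h1, a, ha⟩ := mem_filter.1 hτ'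
        rw [mem_filter] at ha
        obtain ⟨Y, hY, e⟩ := hR τ' h1 a ((hRp τ hτ).1 a ha.1) ha.2
        exact mem_biUnion.2 ⟨a, ha.1, mem_image.2 ⟨Y, hY, e⟩⟩
      refine (card_le_card this).trans ((card_biUnion_le_card_mul _ _ c ?_).trans ?_)
      · exact fun a ha => card_image_le.trans (hd a ((hRp τ hτ).1 a ha)).1
      · rw [(hRp τ hτ).2.1])
  refine hN V G S d O γ hn hk ⟨fun w hw => (hd w hw).1, fun w hw Y hY =>
    ⟨((hd w hw).2.2 Y hY).1, fun y hy => (((hd w hw).2.2 Y hY).2 y hy).1⟩, hR, ?_⟩ S subset_rfl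
    ?_ hT
  · intro τ hτ τ' hτ' hγ A hA
    by_contra hc
    have h1 := rep_sym hA (hRp τ' hτ').2.2 (not_le.1 hc)
    have h2 := card_filter_add_card_filter_not (s := Rp τ') (fun a => a ∈ τ)
    rw [(hRp τ' hτ').2.1] at h2
    by_cases e : τ' = τ
    · subst e
      have h3 := rep_self (hRp τ' hτ').2.2 hk
      omega
    · exact γ2 τ' hτ' τ hτ e (card_pos.1 (by omega)) hγ.symm
  · intro u hu
    have l2 := Low.biUnion (G := G) (e := e) (c := M) ((d u).filter (fun Y => Low G e M Y))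
      (fun Y => Y) (fun Y hY => (mem_filter.1 hY).2)
    refine l2.mono ?_ (Nat.mul_le_mul_right M ((card_filter_le _ _).trans (hd u hu).1))
    rintro y ⟨y1, y2, y3⟩
    obtain ⟨Y, hY, hyY⟩ := (hd u hu).2.1 y y1 y2
    refine ⟨Y, mem_filter.2 ⟨hY, ?_⟩, hyY⟩
    by_contra hc
    have hτ : tp G e c Y ∈ O := (mO _).2 ⟨u, hu, Y, hY, hc, rfl⟩
    exact y3 Y hY hτ (γ1 _ hτ) hyY

theorem phi_all (n k : ℕ) {p : ℕ → ℕ} (hp : ∀ i, 0 < i → p i < i) (T e : ℕ) :
    Phi n k p (T + 1) e := by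
  induction e with
  | zero => exact phi_zero n k p _
  | succ e ih => exact phi_succ hp ih

theorem stable_forest {α : Type} [Fintype α] (F : SimpleGraph α) (hF : F.IsAcyclic) (n k : ℕ) :
    ∃ N : ℕ, ∀ (V : Type) [Fintype V] (G : SimpleGraph V), NH G n →
      (∀ K : Finset V, G.IsClique K → K.card ≤ k) → IsEmpty (F ↪g G) → G.Colorable N := by
  obtain ⟨t, p, e, hp, he, hadj⟩ := embed_tree F hF univ
  obtain ⟨H, hH⟩ := low_of_nh n
  obtain ⟨N, hN⟩ := phi_all n k hp t H 1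
  refine ⟨N, fun V _ G hn hk hE => ?_⟩
  have : Col G.Adj univ N := by
    apply hN V G hn hk univ (fun u _ => hH V G hn _)
    rintro ⟨φ, hφ⟩
    apply hE.false
    have hne : ∀ x y, x ≠ y → φ (e x) ≠ φ (e y) := fun x y h =>
      hφ.ne (he x (mem_univ _)) (he y (mem_univ _)) (hadj x (mem_univ _) y (mem_univ _) h).1
    have h1 : ∀ x y, e x < e y → (G.Adj (φ (e x)) (φ (e y)) ↔ F.Adj x y) := by
      intro x y h
      have hxy : x ≠ y := fun a => by rw [a] at h; omega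
      rw [(hφ.2 _ (he y (mem_univ _)) _ h).2, (hadj x (mem_univ _) y (mem_univ _) hxy).2 h]
    refine ⟨⟨fun x => φ (e x), fun x y h => ?_⟩, ?_⟩
    · by_contra a
      exact hne x y a h
    · intro x y
      show G.Adj (φ (e x)) (φ (e y)) ↔ F.Adj x y
      by_cases a : x = y
      · simp [a]
      · rcases lt_or_gt_of_ne (hadj x (mem_univ _) y (mem_univ _) a).1 with b | b
        · exact h1 x y b
        · rw [G.adj_comm, F.adj_comm]; exact h1 y x b
  obtain ⟨f, f1, f2⟩ := this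
  exact ⟨SimpleGraph.Coloring.mk (fun v => ⟨f v, f1 v (mem_univ _)⟩) (fun {u v} h e =>
    f2 u (mem_univ _) v (mem_univ _) h.ne h (congrArg Fin.val e))⟩

end Pool.Agent.H.MP_f210e3_co
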