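import Pool.Agent.H.MP_f210e3_co.B

namespace Pool.Agent.H.MP_f210e3_co

open Finset Module Pool.Agent.H.MP_27ff1b_co

theorem nh_of_lin {V W : Type} [AddCommGroup W] [Module ℝ W] [FiniteDimensional ℝ W]
    (G : SimpleGraph V) (x : V → W) (ψ : V → W →ₗ[ℝ] ℝ)
    (h : ∀ u v, G.Adj u v ↔ ψ v (x u) = 0) : NH G (finrank ℝ W + 2) := by
  rintro ⟨a, b, hab⟩
  set N := finrank ℝ W with hN
  let U : ℕ → Submodule ℝ W := fun j =>
    ⨅ (l : ℕ) (_ : j ≤ l) (_ : l < N + 2), LinearMap.ker (ψ (b l))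
  have mU : ∀ j y, y ∈ U j ↔ ∀ l, j ≤ l → l < N + 2 → ψ (b l) y = 0 := by
    intro j y
    simp [U, Submodule.mem_iInf]
  have key : ∀ j, j ≤ N + 1 → j ≤ finrank ℝ (U j) := by
    intro j
    induction j with
    | zero => intro _; omega
    | succ j ih =>
      intro hj
      have h1 : U j < U (j + 1) := by
        refine lt_of_le_of_ne (fun y hy => (mU _ _).2 (fun l h1 h2 => (mU _ _).1 hy l (by omega) h2))
          (fun e => ?_)
        have a1 : x (a (j + 1)) ∈ U (j + 1) := (mU _ _).2 (fun l h1 h2 =>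
          (h _ _).1 ((hab _ (by omega) _ h2).2 h1))
        rw [← e] at a1
        have := (hab (j + 1) (by omega) j (by omega)).1
          ((h _ _).2 ((mU _ _).1 a1 j le_rfl (by omega)))
        omega
      have := Submodule.finrank_lt_finrank_of_lt h1
      have := ih (by omega)
      omega
  have := key (N + 1) le_rfl
  have := Submodule.finrank_le (U (N + 1))
  omega

theorem nh_spheres {V : Type} (d : ℕ) (S : V → EuclideanSpace ℝ (Fin d) × ℝ)
    (hpos : ∀ i, 0 < (S i).2) :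
    NH (SimpleGraph.fromRel
      (fun i j : V => dist (S i).1 (S j).1 ^ 2 = (S i).2 ^ 2 + (S j).2 ^ 2))
      (finrank ℝ (EuclideanSpace ℝ (Fin d) × ℝ × ℝ) + 2) := by
  refine nh_of_lin _ (fun i => ((S i).1, 1, ‖(S i).1‖ ^ 2 - (S i).2 ^ 2))
    (fun j => (2 : ℝ) • ((innerₗ _ (S j).1).comp (LinearMap.fst ℝ _ _)) -
      (LinearMap.snd ℝ ℝ ℝ).comp (LinearMap.snd ℝ _ _) -
      (‖(S j).1‖ ^ 2 - (S j).2 ^ 2) • (LinearMap.fst ℝ ℝ ℝ).comp (LinearMap.snd ℝ _ _)) ?_
  intro u v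
  have e : dist (S u).1 (S v).1 ^ 2 =
      ‖(S u).1‖ ^ 2 - 2 * inner ℝ (S v).1 (S u).1 + ‖(S v).1‖ ^ 2 := by
    rw [dist_eq_norm, norm_sub_sq_real, real_inner_comm]
  simp only [SimpleGraph.fromRel_adj, LinearMap.sub_apply, LinearMap.smul_apply,
    LinearMap.comp_apply, LinearMap.fst_apply, LinearMap.snd_apply, innerₗ_apply_apply,
    smul_eq_mul]
  rw [dist_comm (S v).1, e]
  constructor
  · rintro ⟨-, h | h⟩ <;> linarith
  · intro h
    refine ⟨?_, Or.inl (by linarith)⟩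
    rintro rfl
    rw [real_inner_self_eq_norm_sq] at h
    have := hpos u
    nlinarith

theorem nh_of_disjoint {V : Type} (G : SimpleGraph V) (n : ℕ)
    (h : ¬ ∃ a b : Fin n → V, (∀ i j, a i ≠ b j) ∧ ∀ i j, (G.Adj (a i) (b j) ↔ i ≤ j)) :
    NH G (3 * n + 1) := by
  classical
  rintro ⟨a, b, hab⟩
  obtain ⟨f, f1, f2⟩ := Col.outdeg (fun i j : ℕ => a i = b j) 1 (range (3 * n + 1)) (by
    intro i _
    rw [card_le_one]
    intro j hj l hl
    rw [mem_filter, mem_range] at hj hl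
    have e : b j = b l := hj.2.symm.trans hl.2
    have a1 := (hab j hj.1 l hl.1).1 (e ▸ (hab j hj.1 j hj.1).2 le_rfl)
    have a2 := (hab l hl.1 j hj.1).1 (e ▸ (hab l hl.1 l hl.1).2 le_rfl)
    omega)
  obtain ⟨y, -, hy⟩ := exists_lt_card_fiber_of_mul_lt_card_of_maps_to
    (s := range (3 * n + 1)) (t := range 3) (f := f) (n := n)
    (fun i hi => mem_range.2 (f1 i hi)) (by simp)
  set I := (range (3 * n + 1)).filter (fun i => f i = y) with hI
  let g := I.orderEmbOfCardLe hy.le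
  have hg : ∀ i, g i ∈ range (3 * n + 1) ∧ f (g i) = y := fun i =>
    mem_filter.1 (I.orderEmbOfCardLe_mem hy.le i)
  refine h ⟨fun i => a (g i), fun j => b (g j), fun i j e => ?_, fun i j => ?_⟩
  · by_cases c : g i = g j
    · have := (hab _ (mem_range.1 (hg i).1) _ (mem_range.1 (hg j).1)).2 c.le
      exact this.ne e
    · exact f2 _ (hg i).1 _ (hg j).1 c e ((hg i).2.trans (hg j).2.symm)
  · rw [hab _ (mem_range.1 (hg i).1) _ (mem_range.1 (hg j).1)]
    exact g.le_iff_le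

end Pool.Agent.H.MP_f210e3_co
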