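import Pool.Agent.H.MP_f210e3_co.C

namespace Pool.Agent.H.MP_f210e3_co

open Finset Pool.Agent.H.MP_27ff1b_co

theorem ramsey (k : ℕ) : ∀ n : ℕ, ∃ N : ℕ, ∀ (V : Type) (G : SimpleGraph V) (S : Finset V),
    N ≤ S.card → (∃ K ⊆ S, G.IsClique K ∧ K.card = k) ∨
      (∃ I ⊆ S, (∀ u ∈ I, ∀ v ∈ I, ¬ G.Adj u v) ∧ I.card = n) := by
  induction k with
  | zero => exact fun n => ⟨0, fun V G S _ => Or.inl ⟨∅, by simp, by simp, by simp⟩⟩
  | succ k ihk =>
    intro n
    induction n with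
    | zero => exact ⟨0, fun V G S _ => Or.inr ⟨∅, by simp, by simp, by simp⟩⟩
    | succ n ihn =>
      obtain ⟨N1, h1⟩ := ihk (n + 1)
      obtain ⟨N2, h2⟩ := ihn
      refine ⟨N1 + N2 + 1, fun V G S hS => ?_⟩
      classical
      obtain ⟨v, hv⟩ : S.Nonempty := card_pos.1 (by omega)
      have e := card_filter_add_card_filter_not (s := S.erase v) (fun u => G.Adj v u)
      rw [card_erase_of_mem hv] at e
      by_cases a : N1 ≤ ((S.erase v).filter (fun u => G.Adj v u)).card
      · rcases h1 V G _ a with ⟨K, k1, k2, k3⟩ | ⟨I, i1, i2, i3⟩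
        · left
          have hvK : v ∉ K := fun h => G.loopless.irrefl v (mem_filter.1 (k1 h)).2
          refine ⟨insert v K, insert_subset hv
            (k1.trans ((filter_subset _ _).trans (erase_subset _ _))), ?_, by
              rw [card_insert_of_notMem hvK, k3]⟩
          rw [coe_insert]
          exact k2.insert (fun b hb _ => (mem_filter.1 (k1 hb)).2)
        · exact Or.inr ⟨I, i1.trans ((filter_subset _ _).trans (erase_subset _ _)), i2, i3⟩
      · rcases h2 V G ((S.erase v).filter (fun u => ¬ G.Adj v u)) (by omega) with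
          ⟨K, k1, k2, k3⟩ | ⟨I, i1, i2, i3⟩
        · exact Or.inl ⟨K, k1.trans ((filter_subset _ _).trans (erase_subset _ _)), k2, k3⟩
        · right
          have hvI : v ∉ I := fun h => (mem_erase.1 (mem_filter.1 (i1 h)).1).1 rfl
          refine ⟨insert v I, insert_subset hv
            (i1.trans ((filter_subset _ _).trans (erase_subset _ _))), ?_, by
              rw [card_insert_of_notMem hvI, i3]⟩
          intro x hx y hy
          rcases mem_insert.1 hx with e1 | hx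
          · rcases mem_insert.1 hy with e2 | hy
            · rw [e1, e2]; exact G.loopless.irrefl v
            · rw [e1]; exact (mem_filter.1 (i1 hy)).2
          · rcases mem_insert.1 hy with e2 | hy
            · rw [e2]; exact fun h => (mem_filter.1 (i1 hx)).2 h.symm
            · exact i2 x hx y hy

theorem ramsey_map (k n : ℕ) : ∃ N : ℕ, ∀ (V ι : Type) (G : SimpleGraph V) (a : ι → V)
    (S : Finset ι), (∀ K : Finset V, G.IsClique K → K.card ≤ k) → N ≤ S.card →
      ∃ I ⊆ S, (∀ u ∈ I, ∀ v ∈ I, ¬ G.Adj (a u) (a v)) ∧ I.card = n := by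
  obtain ⟨N, hN⟩ := ramsey (k + 1) n
  refine ⟨N, fun V ι G a S hk hS => (hN ι (G.comap a) S hS).resolve_left ?_⟩
  classical
  rintro ⟨K, -, k2, k3⟩
  have h1 : (K.image a).card = K.card := card_image_of_injOn (fun x hx y hy e => by
    by_contra hxy
    exact G.ne_of_adj (k2 hx hy hxy) e)
  have h2 := hk (K.image a) (by
    intro x hx y hy hxy
    rw [coe_image] at hx hy
    obtain ⟨x, hx, rfl⟩ := hx
    obtain ⟨y, hy, rfl⟩ := hy
    exact k2 hx hy (fun e => hxy (e ▸ rfl)))
  omega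

theorem nh_of_induced (n k : ℕ) : ∃ N : ℕ, ∀ (V : Type) (G : SimpleGraph V),
    (∀ K : Finset V, G.IsClique K → K.card ≤ k) →
    (¬ ∃ a b : Fin n → V, (∀ i j, a i ≠ b j) ∧ (∀ i j, ¬ G.Adj (a i) (a j)) ∧
      (∀ i j, ¬ G.Adj (b i) (b j)) ∧ ∀ i j, (G.Adj (a i) (b j) ↔ i ≤ j)) → NH G N := by
  obtain ⟨N1, h1⟩ := ramsey_map k n
  obtain ⟨N2, h2⟩ := ramsey_map k N1
  refine ⟨3 * N2 + 1, fun V G hk h => nh_of_disjoint G N2 ?_⟩
  rintro ⟨a, b, hne, hab⟩
  obtain ⟨I, -, i2, i3⟩ := h2 V (Fin N2) G a univ hk (by simp)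
  obtain ⟨J, j1, j2, j3⟩ := h1 V (Fin N2) G b I hk i3.ge
  let g := J.orderEmbOfCardLe j3.ge
  have hg : ∀ i, g i ∈ J := fun i => J.orderEmbOfCardLe_mem j3.ge i
  exact h ⟨fun i => a (g i), fun i => b (g i), fun i j => hne _ _,
    fun i j => i2 _ (j1 (hg i)) _ (j1 (hg j)), fun i j => j2 _ (hg i) _ (hg j),
    fun i j => (hab _ _).trans g.le_iff_le⟩

end Pool.Agent.H.MP_f210e3_co
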